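import Pool.Agent.Helper35.Cq.Defs

/-!
# CQ-10: contraction of an element of a cone
-/

set_option autoImplicit false
set_option linter.unusedSectionVars false

open Finset Module
open scoped Classical

namespace Pool.Agent.Helper35.Cq

section con
variable {F : Type*} [Field F] {V : Type*} [AddCommGroup V] [Module F V]
  {E : Finset V} (hE : Conic F E) {x : V} (hx : x ∈ E)

theorem mem_con_iff (y : V ⧸ Submodule.span F {x}) :
    y ∈ con F E x ↔ y ≠ 0 ∧ ∃ e ∈ E, (Submodule.span F {x}).mkQ e = y := by
  simp only [con, Finset.mem_erase, Finset.mem_image]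

theorem mkQ_eq_zero_iff (y : V) :
    (Submodule.span F {x}).mkQ y = 0 ↔ y ∈ Submodule.span F {x} := by
  rw [← LinearMap.mem_ker, Submodule.ker_mkQ]

include hE hx in
theorem conic_con : Conic F (con F E x) := by
  constructor
  · intro y hy
    exact ((mem_con_iff y).1 hy).1
  · intro c hc y hy
    obtain ⟨hy0, e, he, rfl⟩ := (mem_con_iff y).1 hy
    refine (mem_con_iff _).2 ⟨smul_ne_zero hc hy0, c • e, hE.smul_mem c hc e he, ?_⟩
    rw [map_smul]

include hE hx in
theorem hasClique_con (t : ℕ) (h : HasClique F t (con F E x : Set (V ⧸ Submodule.span F {x}))) :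
    HasClique F t (E : Set V) := by
  obtain ⟨C', hC', v', hv', hpair⟩ := h
  set π := (Submodule.span F {x}).mkQ with hπ
  let C : Set V := {e | e ∈ E ∧ (π e ∈ C' ∨ e = x)}
  have hxC : x ∈ C := ⟨hx, Or.inr rfl⟩
  have key : ∀ w : V, w ∈ Submodule.span F C ↔ π w ∈ Submodule.span F C' := by
    intro w
    constructor
    · intro hw
      have h1 : π w ∈ (Submodule.span F C).map π := Submodule.mem_map_of_mem hw
      rw [Submodule.map_span] at h1
      refine (Submodule.span_le.2 ?_) h1
      rintro _ ⟨e, ⟨-, he⟩, rfl⟩
      rcases he with he | rfl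
      · exact Submodule.subset_span he
      · have : π e = 0 := (mkQ_eq_zero_iff e).2 (Submodule.mem_span_singleton_self e)
        rw [this]
        exact Submodule.zero_mem _
    · intro hw
      have h1 : π w ∈ (Submodule.span F C).map π := by
        rw [Submodule.map_span]
        refine (Submodule.span_mono ?_) hw
        intro y hy
        obtain ⟨-, e, he, rfl⟩ := (mem_con_iff y).1 (hC' hy)
        exact ⟨e, ⟨he, Or.inl hy⟩, rfl⟩
      obtain ⟨u, hu, huw⟩ := h1
      have h2 : w - u ∈ Submodule.span F {x} := by
        rw [← mkQ_eq_zero_iff, map_sub]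
        exact sub_eq_zero.2 huw.symm
      have h3 : w - u ∈ Submodule.span F C :=
        (Submodule.span_mono (by simpa using hxC)) h2
      have := Submodule.add_mem _ h3 hu
      simpa using this
  have hlift : ∀ i, ∃ w : V, π w = v' i := fun i => Submodule.mkQ_surjective _ (v' i)
  choose v hv using hlift
  refine ⟨C, fun e he => he.1, v, ?_, ?_⟩
  · intro α hα hmem
    refine hv' α hα ?_
    have := (key _).1 hmem
    rw [map_sum] at this
    simpa only [map_smul, hv] using this
  · intro i j hij
    obtain ⟨e', he', c, hc, hmem⟩ := hpair i j hij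
    obtain ⟨-, e, he, rfl⟩ := (mem_con_iff e').1 he'
    refine ⟨e, he, c, hc, (key _).2 ?_⟩
    rw [map_sub, map_smul, map_sub, hv, hv]
    exact hmem

include hE hx in
theorem rk_con : rk F (con F E x) + 1 = rk F E := by
  have hspan : Submodule.span F (con F E x : Set (V ⧸ Submodule.span F {x})) =
      (Submodule.span F (E : Set V)).map (Submodule.span F {x}).mkQ := by
    rw [Submodule.map_span]
    apply le_antisymm
    · refine Submodule.span_mono ?_
      intro y hy
      obtain ⟨-, e, he, rfl⟩ := (mem_con_iff y).1 hy
      exact ⟨e, he, rfl⟩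
    · refine Submodule.span_le.2 ?_
      rintro _ ⟨e, he, rfl⟩
      by_cases h0 : (Submodule.span F {x}).mkQ e = 0
      · rw [h0]; exact Submodule.zero_mem _
      · exact Submodule.subset_span ((mem_con_iff _).2 ⟨h0, e, he, rfl⟩)
  unfold rk
  rw [hspan]
  have hle : Submodule.span F {x} ≤ Submodule.span F (E : Set V) :=
    Submodule.span_mono (by simpa using hx)
  have hx0 : x ≠ 0 := hE.ne_zero x hx
  have : FiniteDimensional F (Submodule.span F (E : Set V)) :=
    FiniteDimensional.span_finset F E
  have h1 := LinearMap.finrank_range_add_finrank_ker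
    ((Submodule.span F {x}).mkQ.domRestrict (Submodule.span F (E : Set V)))
  have h2 : LinearMap.range ((Submodule.span F {x}).mkQ.domRestrict (Submodule.span F (E : Set V)))
      = (Submodule.span F (E : Set V)).map (Submodule.span F {x}).mkQ := by
    rw [LinearMap.range_domRestrict]
  have h3 : LinearMap.ker ((Submodule.span F {x}).mkQ.domRestrict (Submodule.span F (E : Set V)))
      = (Submodule.span F {x}).comap (Submodule.span F (E : Set V)).subtype := by
    rw [LinearMap.ker_domRestrict, Submodule.ker_mkQ]
  rw [h2, h3] at h1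
  have h4 : finrank F ((Submodule.span F {x}).comap (Submodule.span F (E : Set V)).subtype) = 1 := by
    rw [(Submodule.comapSubtypeEquivOfLe hle).finrank_eq]
    exact finrank_span_singleton hx0
  rw [h4] at h1
  exact h1

include hE hx in
theorem card_con_le : (con F E x).card ≤ E.card :=
  (Finset.card_le_card (Finset.erase_subset _ _)).trans Finset.card_image_le

include hE hx in
theorem card_le_con [Fintype F] : E.card ≤ (con F E x).card + Fintype.card F + (nb F E x).card := by
  have hx0 : x ≠ 0 := hE.ne_zero x hx
  set π := (Submodule.span F {x}).mkQ with hπ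
  let A : Finset V := E.filter fun y => π y = 0
  let B : Finset V := E.filter fun y => π y ≠ 0 ∧ y ∉ nb F E x
  have hcover : E ⊆ (B ∪ A) ∪ nb F E x := by
    intro y hy
    by_cases h1 : y ∈ nb F E x
    · exact Finset.mem_union_right _ h1
    · refine Finset.mem_union_left _ ?_
      by_cases h2 : π y = 0
      · exact Finset.mem_union_right _ (Finset.mem_filter.2 ⟨hy, h2⟩)
      · exact Finset.mem_union_left _ (Finset.mem_filter.2 ⟨hy, h2, h1⟩)
  have hA : A.card ≤ Fintype.card F := by
    have : A ⊆ (Finset.univ : Finset F).image fun c => c • x := by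
      intro y hy
      obtain ⟨hyE, hy0⟩ := Finset.mem_filter.1 hy
      obtain ⟨c, hc⟩ := Submodule.mem_span_singleton.1 ((mkQ_eq_zero_iff y).1 hy0)
      exact Finset.mem_image.2 ⟨c, Finset.mem_univ _, hc⟩
    exact (Finset.card_le_card this).trans Finset.card_image_le
  have hB : B.card ≤ (con F E x).card := by
    refine Finset.card_le_card_of_injOn π ?_ ?_
    · intro y hy
      obtain ⟨hyE, hy0, -⟩ := Finset.mem_filter.1 hy
      exact (mem_con_iff _).2 ⟨hy0, y, hyE, rfl⟩
    · intro y hy z hz hyz
      obtain ⟨hyE, hy0, hynb⟩ := Finset.mem_filter.1 hy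
      obtain ⟨hzE, hz0, hznb⟩ := Finset.mem_filter.1 hz
      by_contra hne
      apply hynb
      have h1 : z - y ∈ Submodule.span F {x} := by
        rw [← mkQ_eq_zero_iff, map_sub]
        exact sub_eq_zero.2 hyz.symm
      obtain ⟨a, ha⟩ := Submodule.mem_span_singleton.1 h1
      have ha0 : a ≠ 0 := by
        rintro rfl
        rw [zero_smul] at ha
        exact hne (sub_eq_zero.1 ha.symm).symm
      refine Finset.mem_filter.2 ⟨hyE, ?_, a⁻¹, inv_ne_zero ha0, ?_⟩
      · intro c d hcd
        have hd : d = 0 := by
          by_contra hd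
          apply hy0
          refine (mkQ_eq_zero_iff y).2 (Submodule.mem_span_singleton.2 ⟨-(d⁻¹ * c), ?_⟩)
          have : y = d⁻¹ • (c • x + d • y) - (d⁻¹ * c) • x := by
            rw [smul_add, smul_smul, smul_smul, inv_mul_cancel₀ hd, one_smul]
            abel
          rw [this, hcd, smul_zero, zero_sub, neg_smul]
        subst hd
        rw [zero_smul, add_zero] at hcd
        exact ⟨(smul_eq_zero.1 hcd).resolve_right hx0, rfl⟩
      · have h2 : x + a⁻¹ • y = a⁻¹ • z := by
          have : z = y + a • x := by rw [ha]; abel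
          rw [this, smul_add, smul_smul, inv_mul_cancel₀ ha0, one_smul]
          abel
        rw [h2]
        exact hE.smul_mem _ (inv_ne_zero ha0) z hzE
  calc E.card ≤ ((B ∪ A) ∪ nb F E x).card := Finset.card_le_card hcover
    _ ≤ (B ∪ A).card + (nb F E x).card := Finset.card_union_le _ _
    _ ≤ (B.card + A.card) + (nb F E x).card := by
        gcongr
        exact Finset.card_union_le _ _
    _ ≤ _ := by gcongr

end con

end Pool.Agent.Helper35.Cq
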